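import Pool.Agent.N795.BV.Stm2

set_option autoImplicit false

/-! # Project BV: the local inequality with a quadratic gain -/

namespace Pool.Agent.N795.BV

namespace PhiQ

open Finset

theorem log_low {q : ℝ} (hq : -(1 / 2) ≤ q) : q - 2 * q ^ 2 ≤ Real.log (1 + q) := by
  have h0 : 0 < 1 + q := by linarith
  have h1 := Real.one_sub_inv_le_log_of_pos h0
  refine le_trans ?_ h1
  have h2 : 1 - (1 + q)⁻¹ = q / (1 + q) := by field_simp; ring
  rw [h2, le_div_iff₀ h0]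
  have h3 : 0 ≤ q ^ 2 * (1 + 2 * q) := mul_nonneg (sq_nonneg _) (by linarith)
  nlinarith

theorem core (m : ℕ) (hm : 2 ≤ m) (K : ℝ) (hK : 0 < K) : ∃ ε κ : ℝ, 0 < ε ∧ ε ≤ 1 / 2 ∧ 0 < κ ∧
    ∀ (x y : Fin m → ℝ) (η L P : ℝ), 0 ≤ η → η ≤ ε → (∀ i, x i ^ 2 + y i ^ 2 ≤ η ^ 2) →
      (∃ i, x i ^ 2 + y i ^ 2 = η ^ 2) → ∑ i, x i = 0 →
      (∀ i, x i + (x i ^ 2 - y i ^ 2) / 2 - η ^ 3 ≤ L) →
      1 + ((m : ℝ) + 1) / (2 * ((m : ℝ) - 1)) * ∑ i, (y i ^ 2 - x i ^ 2) - K * η ^ 3 ≤ P →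
      0 < P ∧ κ * η ^ 2 ≤ ((m : ℝ) + 1) * L + Real.log P := by
  have hm2 : (2 : ℝ) ≤ m := by exact_mod_cast hm
  obtain ⟨c, hc⟩ : ∃ c : ℝ, c = ((m : ℝ) + 1) / (2 * ((m : ℝ) - 1)) := ⟨_, rfl⟩
  have hc0 : 0 < c := by rw [hc]; apply div_pos <;> linarith
  obtain ⟨C, hC⟩ : ∃ C : ℝ, C = c * m + K := ⟨_, rfl⟩
  have hC0 : 0 < C := by rw [hC]; positivity
  obtain ⟨K', hK'⟩ : ∃ K' : ℝ, K' = K + 2 * C ^ 2 := ⟨_, rfl⟩
  have hK'0 : 0 < K' := by rw [hK']; positivity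
  obtain ⟨T, hT⟩ : ∃ T : ℝ, T = 3 + c * m + K' := ⟨_, rfl⟩
  have hT0 : 0 < T := by rw [hT]; positivity
  obtain ⟨a, ha⟩ : ∃ a : ℝ, a = ((m : ℝ) + 1) / (2 * m * ((m : ℝ) - 1)) := ⟨_, rfl⟩
  have ha0 : 0 < a := by
    rw [ha]; apply div_pos (by linarith)
    exact mul_pos (by linarith) (by linarith)
  obtain ⟨R, hR⟩ : ∃ R : ℝ, R = 2 * a * m * (m * T) ^ 2 + m + 1 + K' := ⟨_, rfl⟩
  have hR0 : 0 < R := by rw [hR]; positivity
  refine ⟨min (1 / 2) (min (1 / (2 * C)) (a / (2 * R))), min 1 (a / 2),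
    lt_min (by norm_num) (lt_min (by positivity) (by positivity)), min_le_left _ _,
    lt_min one_pos (by positivity), ?_⟩
  intro x y η L P hη0 hη hxy hex hsum hL hP
  have hη1 : η ≤ 1 / 2 := hη.trans (min_le_left _ _)
  have hη2 : η ≤ 1 / (2 * C) := hη.trans ((min_le_right _ _).trans (min_le_left _ _))
  have hη3 : η ≤ a / (2 * R) := hη.trans ((min_le_right _ _).trans (min_le_right _ _))
  have hη2' : C * η ≤ 1 / 2 := by
    rw [le_div_iff₀ (by positivity)] at hη2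
    linarith
  have hη3' : R * η ≤ a / 2 := by
    rw [le_div_iff₀ (by positivity)] at hη3
    linarith
  have hsq : 0 ≤ η ^ 2 := sq_nonneg η
  have hcu : η ^ 3 ≤ η ^ 2 := pow_le_pow_of_le_one hη0 (by linarith) (by norm_num)
  have hcu0 : 0 ≤ η ^ 3 := pow_nonneg hη0 3
  have hqu : η ^ 4 ≤ η ^ 3 := pow_le_pow_of_le_one hη0 (by linarith) (by norm_num)
  obtain ⟨S, hS⟩ : ∃ S : ℝ, S = ∑ i, (y i ^ 2 - x i ^ 2) := ⟨_, rfl⟩
  rw [← hS, ← hc] at hP
  have hSlow : -(m * η ^ 2) ≤ S := by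
    have h1 : ∑ _i : Fin m, (-(η ^ 2)) ≤ S := by
      rw [hS]
      exact Finset.sum_le_sum fun i _ => by linarith [hxy i, sq_nonneg (y i)]
    rw [Finset.sum_const, Finset.card_univ, Fintype.card_fin, nsmul_eq_mul] at h1
    linarith
  have hSup : S ≤ m * η ^ 2 := by
    have h1 : S ≤ ∑ _i : Fin m, (η ^ 2) := by
      rw [hS]
      exact Finset.sum_le_sum fun i _ => by linarith [hxy i, sq_nonneg (x i)]
    rw [Finset.sum_const, Finset.card_univ, Fintype.card_fin, nsmul_eq_mul] at h1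
    linarith
  obtain ⟨q, hq⟩ : ∃ q : ℝ, q = c * S - K * η ^ 3 := ⟨_, rfl⟩
  have hcS1 : -(c * (m * η ^ 2)) ≤ c * S := by
    have e1 := mul_le_mul_of_nonneg_left hSlow hc0.le
    have e2 : c * (-(m * η ^ 2)) = -(c * (m * η ^ 2)) := by ring
    linarith
  have hcS2 : c * S ≤ c * (m * η ^ 2) := mul_le_mul_of_nonneg_left hSup hc0.le
  have hq1 : -(C * η ^ 2) ≤ q := by
    rw [hq, hC]
    have e1 : K * η ^ 3 ≤ K * η ^ 2 := mul_le_mul_of_nonneg_left hcu hK.le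
    have e2 : (c * m + K) * η ^ 2 = c * (m * η ^ 2) + K * η ^ 2 := by ring
    linarith
  have hq2 : q ≤ C * η ^ 2 := by
    rw [hq, hC]
    have e1 : 0 ≤ K * η ^ 3 := by positivity
    have e3 : 0 ≤ K * η ^ 2 := by positivity
    have e2 : (c * m + K) * η ^ 2 = c * (m * η ^ 2) + K * η ^ 2 := by ring
    linarith
  have hCη : C * η ^ 2 ≤ 1 / 2 := by
    have h1 : C * η ^ 2 = (C * η) * η := by ring
    rw [h1]
    have h2 : (C * η) * η ≤ 1 / 2 * 1 := mul_le_mul hη2' (by linarith) hη0 (by norm_num)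
    linarith
  have hq3 : -(1 / 2) ≤ q := by linarith
  have hP0 : 0 < P := by
    have : 1 + q ≤ P := by rw [hq]; linarith
    linarith
  refine ⟨hP0, ?_⟩
  have hlog : c * S - K' * η ^ 3 ≤ Real.log P := by
    have h1 : Real.log (1 + q) ≤ Real.log P :=
      Real.log_le_log (by linarith) (by rw [hq]; linarith)
    have h2 := log_low hq3
    have h3 : q ^ 2 ≤ (C * η ^ 2) ^ 2 := sq_le_sq' hq1 hq2
    have h4 : (C * η ^ 2) ^ 2 ≤ C ^ 2 * η ^ 3 := by
      have : (C * η ^ 2) ^ 2 = C ^ 2 * η ^ 4 := by ring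
      rw [this]
      exact mul_le_mul_of_nonneg_left hqu (sq_nonneg _)
    have h5 : K' * η ^ 3 = K * η ^ 3 + 2 * (C ^ 2 * η ^ 3) := by
      rw [hK']
      ring
    linarith
  by_cases hcase : ∃ i, T * η ^ 2 ≤ x i
  · obtain ⟨i, hi⟩ := hcase
    have h1 := hL i
    have h2 : -(η ^ 2) / 2 ≤ (x i ^ 2 - y i ^ 2) / 2 := by
      have e1 := hxy i
      have e2 := sq_nonneg (x i)
      linarith
    have h3 : (T - 2) * η ^ 2 ≤ L := by
      have e1 : (T - 2) * η ^ 2 = T * η ^ 2 - 2 * η ^ 2 := by ring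
      linarith
    have h4 : -((c * m + K') * η ^ 2) ≤ Real.log P := by
      have e1 : K' * η ^ 3 ≤ K' * η ^ 2 := mul_le_mul_of_nonneg_left hcu hK'0.le
      have e2 : (c * m + K') * η ^ 2 = c * (m * η ^ 2) + K' * η ^ 2 := by ring
      linarith
    have h5 : (T - 2) * η ^ 2 = (1 + c * m + K') * η ^ 2 := by rw [hT]; ring
    have h6 : 0 ≤ (1 + c * m + K') * η ^ 2 := by positivity
    have h7 : (1 + c * m + K') * η ^ 2 ≤ ((m : ℝ) + 1) * L := by
      have h8 : 0 ≤ L := by linarith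
      have e1 : ((m : ℝ) + 1) * L = m * L + L := by ring
      have e2 : 0 ≤ m * L := by positivity
      linarith
    have h9 : min 1 (a / 2) * η ^ 2 ≤ 1 * η ^ 2 := mul_le_mul_of_nonneg_right (min_le_left _ _) hsq
    have e3 : (1 + c * m + K') * η ^ 2 = η ^ 2 + (c * m + K') * η ^ 2 := by ring
    linarith
  · push Not at hcase
    -- all `x i` are small
    have hTη : 0 ≤ T * η ^ 2 := by positivity
    have hx2 : ∀ i, x i ^ 2 ≤ (m * T) ^ 2 * η ^ 4 := by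
      intro i
      have h1 : x i = -∑ j ∈ univ.erase i, x j := by
        rw [← Finset.add_sum_erase _ _ (mem_univ i)] at hsum
        linarith
      have h2 : ∑ j ∈ univ.erase i, x j ≤ ∑ _j ∈ univ.erase i, T * η ^ 2 :=
        Finset.sum_le_sum fun j _ => (hcase j).le
      rw [Finset.sum_const, nsmul_eq_mul] at h2
      have h3 : ((univ.erase i : Finset (Fin m)).card : ℝ) ≤ m := by
        have : (univ.erase i : Finset (Fin m)).card ≤ m := by
          rw [Finset.card_erase_of_mem (mem_univ i), Finset.card_univ, Fintype.card_fin]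
          omega
        exact_mod_cast this
      have h4 : ((univ.erase i : Finset (Fin m)).card : ℝ) * (T * η ^ 2) ≤ m * (T * η ^ 2) :=
        mul_le_mul_of_nonneg_right h3 hTη
      have h5 : -(m * (T * η ^ 2)) ≤ x i := by linarith
      have h6 : x i ≤ m * (T * η ^ 2) := by
        have e1 := (hcase i).le
        have e2 : 1 * (T * η ^ 2) ≤ m * (T * η ^ 2) :=
          mul_le_mul_of_nonneg_right (by linarith) hTη
        linarith
      have h7 := sq_le_sq' h5 h6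
      calc x i ^ 2 ≤ (m * (T * η ^ 2)) ^ 2 := h7
        _ = (m * T) ^ 2 * η ^ 4 := by ring
    have hSbig : η ^ 2 - 2 * (m * ((m * T) ^ 2 * η ^ 4)) ≤ S := by
      have h1 : S = ∑ i, (x i ^ 2 + y i ^ 2) - 2 * ∑ i, x i ^ 2 := by
        rw [hS, Finset.mul_sum, ← Finset.sum_sub_distrib]
        exact Finset.sum_congr rfl fun i _ => by ring
      have h2 : η ^ 2 ≤ ∑ i, (x i ^ 2 + y i ^ 2) := by
        obtain ⟨i, hi⟩ := hex
        rw [← hi]
        exact Finset.single_le_sum (f := fun i => x i ^ 2 + y i ^ 2)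
          (fun j _ => by positivity) (mem_univ i)
      have h3 : ∑ i, x i ^ 2 ≤ ∑ _i : Fin m, ((m * T) ^ 2 * η ^ 4) :=
        Finset.sum_le_sum fun i _ => hx2 i
      rw [Finset.sum_const, Finset.card_univ, Fintype.card_fin, nsmul_eq_mul] at h3
      linarith
    have hmL : -(S / 2) - m * η ^ 3 ≤ m * L := by
      have h1 : ∑ i, (x i + (x i ^ 2 - y i ^ 2) / 2 - η ^ 3) ≤ ∑ _i : Fin m, L :=
        Finset.sum_le_sum fun i _ => hL i
      rw [Finset.sum_const, Finset.card_univ, Fintype.card_fin, nsmul_eq_mul] at h1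
      have h2 : ∑ i, (x i + (x i ^ 2 - y i ^ 2) / 2 - η ^ 3) = -(S / 2) - m * η ^ 3 := by
        rw [Finset.sum_sub_distrib, Finset.sum_add_distrib, hsum, Finset.sum_const,
          Finset.card_univ, Fintype.card_fin, nsmul_eq_mul, ← Finset.sum_div, hS]
        have h3 : ∑ i, (x i ^ 2 - y i ^ 2) = -∑ i, (y i ^ 2 - x i ^ 2) := by
          rw [← Finset.sum_neg_distrib]
          exact Finset.sum_congr rfl fun i _ => by ring
        rw [h3]
        ring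
      linarith
    have hm0 : (0 : ℝ) < m := by linarith
    have hLlow : -(S / (2 * m)) - η ^ 3 ≤ L := by
      have h1 : m * (-(S / (2 * m)) - η ^ 3) = -(S / 2) - m * η ^ 3 := by field_simp
      by_contra hcon
      push Not at hcon
      have h2 := mul_lt_mul_of_pos_left hcon hm0
      linarith
    have hid : c - ((m : ℝ) + 1) / (2 * m) = a := by
      rw [hc, ha]
      have : (m : ℝ) - 1 ≠ 0 := by linarith
      field_simp
      ring
    have h1 : a * S - (m + 1 + K') * η ^ 3 ≤ ((m : ℝ) + 1) * L + Real.log P := by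
      have h2 : ((m : ℝ) + 1) * (-(S / (2 * m)) - η ^ 3) ≤ ((m : ℝ) + 1) * L :=
        mul_le_mul_of_nonneg_left hLlow (by linarith)
      have h3 : ((m : ℝ) + 1) * (-(S / (2 * m)) - η ^ 3) =
          -(((m : ℝ) + 1) / (2 * m) * S) - (m + 1) * η ^ 3 := by ring
      have h4 : a * S = c * S - ((m : ℝ) + 1) / (2 * m) * S := by rw [← hid]; ring
      linarith
    have h2 : a * (η ^ 2 - 2 * (m * ((m * T) ^ 2 * η ^ 4))) ≤ a * S :=
      mul_le_mul_of_nonneg_left hSbig ha0.le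
    have h3 : 2 * a * m * (m * T) ^ 2 * η ^ 4 ≤ 2 * a * m * (m * T) ^ 2 * η ^ 3 :=
      mul_le_mul_of_nonneg_left hqu (by positivity)
    have h4 : R * η ^ 3 ≤ a / 2 * η ^ 2 := by
      have : R * η ^ 3 = (R * η) * η ^ 2 := by ring
      rw [this]
      exact mul_le_mul_of_nonneg_right hη3' hsq
    have h5 : R * η ^ 3 = 2 * a * m * (m * T) ^ 2 * η ^ 3 + (m + 1 + K') * η ^ 3 := by
      rw [hR]; ring
    have h6 : min 1 (a / 2) * η ^ 2 ≤ a / 2 * η ^ 2 :=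
      mul_le_mul_of_nonneg_right (min_le_right _ _) hsq
    have h7 : a * (η ^ 2 - 2 * (m * ((m * T) ^ 2 * η ^ 4))) =
        a * η ^ 2 - 2 * a * m * (m * T) ^ 2 * η ^ 4 := by ring
    linarith

end PhiQ

theorem phiq (hA : S_PHIA) (hB : S_PHIB) : S_PHIQ := by
  intro m hm
  obtain ⟨K, hK, hA⟩ := hA m hm
  obtain ⟨ε, κ, hε, hε2, hκ, hcore⟩ := PhiQ.core m hm K hK
  refine ⟨ε, κ, hε, hκ, ?_⟩
  intro u η hη hu hex hsum r hr hr1
  obtain ⟨Φ, hΦ⟩ : ∃ Φ : ℂ, Φ = ((m : ℂ) + 1) * ∫ t in (0 : ℝ)..1, ∏ i, ((t : ℂ) - u i) := ⟨_, rfl⟩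
  rw [← hΦ]
  have hη0 : 0 ≤ η := by
    obtain ⟨i, hi⟩ := hex
    rw [← hi]; exact norm_nonneg _
  have hnorm : ∀ i, (u i).re ^ 2 + (u i).im ^ 2 = ‖u i‖ ^ 2 := by
    intro i
    rw [Complex.sq_norm, Complex.normSq_apply]
    ring
  have h1 : ∀ i, (u i).re ^ 2 + (u i).im ^ 2 ≤ η ^ 2 := by
    intro i
    rw [hnorm]
    exact pow_le_pow_left₀ (norm_nonneg _) (hu i) 2
  have h2 : ∃ i, (u i).re ^ 2 + (u i).im ^ 2 = η ^ 2 := by
    obtain ⟨i, hi⟩ := hex
    exact ⟨i, by rw [hnorm, hi]⟩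
  have h3 : ∑ i, (u i).re = 0 := by
    rw [← Complex.re_sum, hsum, Complex.zero_re]
  have h4 : ∀ i, (u i).re + ((u i).re ^ 2 - (u i).im ^ 2) / 2 - η ^ 3 ≤ Real.log r := by
    intro i
    have h5 := hB (u i) ((hu i).trans (hη.trans hε2))
    have h6 : ((u i) ^ 2).re = (u i).re ^ 2 - (u i).im ^ 2 := by
      rw [sq, Complex.mul_re]; ring
    have h7 : ‖u i‖ ^ 3 ≤ η ^ 3 := pow_le_pow_left₀ (norm_nonneg _) (hu i) 3
    have h8 : 0 < ‖1 - u i‖ := by
      rcases (norm_nonneg (1 - u i)).eq_or_lt with h | h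
      · have := hr1 i
        rw [← h] at this
        norm_num at this
      · exact h
    have h9 : 0 ≤ Real.log r + Real.log ‖1 - u i‖ := by
      rw [← Real.log_mul hr.ne' h8.ne']
      exact Real.log_nonneg (hr1 i)
    rw [h6] at h5
    linarith
  have h5 : 1 + ((m : ℝ) + 1) / (2 * ((m : ℝ) - 1)) * ∑ i, ((u i).im ^ 2 - (u i).re ^ 2) -
      K * η ^ 3 ≤ Φ.re := by
    have h6 := hA u η (by linarith) hu hsum
    rw [← hΦ] at h6
    have h7 := (Complex.abs_re_le_norm _).trans h6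
    have h8 := (abs_le.1 h7).1
    have h9 : (((m : ℂ) + 1) / (2 * ((m : ℂ) - 1)) * ∑ i, (u i) ^ 2).re =
        -(((m : ℝ) + 1) / (2 * ((m : ℝ) - 1)) * ∑ i, ((u i).im ^ 2 - (u i).re ^ 2)) := by
      have h10 : ((m : ℂ) + 1) / (2 * ((m : ℂ) - 1)) =
          ((((m : ℝ) + 1) / (2 * ((m : ℝ) - 1)) : ℝ) : ℂ) := by
        push_cast; rfl
      rw [h10, Complex.re_ofReal_mul, Complex.re_sum, ← mul_neg, ← Finset.sum_neg_distrib]
      congr 1
      refine Finset.sum_congr rfl fun i _ => ?_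
      rw [sq, Complex.mul_re]; ring
    rw [Complex.add_re, Complex.sub_re, Complex.one_re, h9] at h8
    linarith
  obtain ⟨hP0, hmain⟩ := hcore (fun i => (u i).re) (fun i => (u i).im) η (Real.log r) Φ.re hη0 hη
    h1 h2 h3 h4 h5
  have h6 : Φ.re ≤ ‖Φ‖ := Complex.re_le_norm Φ
  have h7 : 0 < ‖Φ‖ := lt_of_lt_of_le hP0 h6
  have h8 : Real.log Φ.re ≤ Real.log ‖Φ‖ := Real.log_le_log hP0 h6
  have h9 : κ * η ^ 2 ≤ Real.log (r ^ (m + 1) * ‖Φ‖) := by
    rw [Real.log_mul (pow_ne_zero _ hr.ne') h7.ne', Real.log_pow]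
    push_cast
    linarith
  have h10 : 0 < r ^ (m + 1) * ‖Φ‖ := mul_pos (pow_pos hr _) h7
  have h11 := Real.add_one_le_exp (Real.log (r ^ (m + 1) * ‖Φ‖))
  rw [Real.exp_log h10] at h11
  linarith

end Pool.Agent.N795.BV
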